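import Mathlib
import Pool.Agent.H41.PC.Main
import Pool.Agent.H41.TG.Main

/-!
# Sets of integers with long connections by steps `u`, `v`, `u + v`

Join two elements of a set `A` of integers if their distance is `u`, `v` or `u + v`. If the
components of this graph do not have bounded diameter, the difference set of `A` contains the
multiples `n` of `gcd u v` with `n θ` close to an integer, for one real number `θ`. The radius is
sharp.
-/

set_option autoImplicit false

namespace Pool.Agent.Results.MP_83445a_co.BoundedComponents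

/-- For every `N` there are `s 0, ..., s k` in `A` with all distances `|s (i + 1) - s i|` in `D`
and `s k - s 0` at least `N`. -/
def Linked (A D : Set ℤ) : Prop :=
  ∀ N : ℤ, ∃ (k : ℕ) (s : ℕ → ℤ), (∀ i ≤ k, s i ∈ A) ∧ (∀ i < k, |s (i + 1) - s i| ∈ D) ∧
    N ≤ s k - s 0

/-- Every multiple `n` of `g` such that the distance of `n θ` to the nearest integer is less
than `r` is a difference of two elements of `A`. -/
def Bohr (A : Set ℤ) (g : ℤ) (θ r : ℝ) : Prop :=
  ∀ n : ℤ, g ∣ n → |n * θ - round (n * θ)| < r → ∃ x ∈ A, ∃ y ∈ A, n = x - y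

private theorem Linked.conn {A D : Set ℤ} (h : Linked A D) (N : ℕ) :
    ∃ x y, Pool.Agent.H41.PC.Conn D A x y ∧ (N : ℤ) ≤ y - x := by
  obtain ⟨k, s, h1, h2, h3⟩ := h N
  exact ⟨s 0, s k, Pool.Agent.H41.PC.conn_of_seq s k h1 h2, h3⟩

private theorem bound_max (u v : ℤ) (hu : 0 < u) (hv : 0 < v) (a b : ℝ)
    (h : a * v + b * u = Int.gcd u v) :
    (Int.gcd u v : ℝ) / (u + v) ≤ max |a| (max |b| |a - b|) := by
  have hur : (0 : ℝ) < u := by exact_mod_cast hu
  have hvr : (0 : ℝ) < v := by exact_mod_cast hv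
  rw [div_le_iff₀ (by positivity), ← h]
  have h1 : a ≤ max |a| (max |b| |a - b|) := le_trans (le_abs_self a) (le_max_left _ _)
  have h2 : b ≤ max |a| (max |b| |a - b|) :=
    le_trans (le_abs_self b) (le_trans (le_max_left _ _) (le_max_right _ _))
  nlinarith

private theorem bound_add (u v : ℤ) (hu : 0 < u) (hv : 0 < v) (a b : ℝ)
    (h : a * v + b * u = Int.gcd u v) :
    (Int.gcd u v : ℝ) / (max u v : ℤ) ≤ |a| + |b| := by
  have hur : (0 : ℝ) < u := by exact_mod_cast hu
  have hvr : (0 : ℝ) < v := by exact_mod_cast hv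
  have hm : (0 : ℝ) < (max u v : ℤ) := by exact_mod_cast lt_max_of_lt_left hu
  have h1 : (u : ℝ) ≤ (max u v : ℤ) := by exact_mod_cast le_max_left u v
  have h2 : (v : ℝ) ≤ (max u v : ℤ) := by exact_mod_cast le_max_right u v
  rw [div_le_iff₀ hm, ← h]
  have h3 : a * v ≤ |a| * (max u v : ℤ) :=
    mul_le_mul (le_abs_self a) h2 hvr.le (abs_nonneg a)
  have h4 : b * u ≤ |b| * (max u v : ℤ) :=
    mul_le_mul (le_abs_self b) h1 hur.le (abs_nonneg b)
  linarith

private theorem sharp_dvd (w : ℤ) (g : ℕ) (hg : 0 < g) (hgw : (g : ℤ) ∣ w) (hlt : (g : ℤ) < w)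
    (θ r : ℝ) (h : Bohr {x | w ∣ x} g θ r) : r ≤ (g : ℝ) / w := by
  obtain ⟨M, hM⟩ := hgw
  have hgz : (0 : ℤ) < g := by exact_mod_cast hg
  have hM2 : 2 ≤ M := by
    by_contra hc
    push Not at hc
    have : w ≤ g * 1 := by
      rw [hM]
      exact mul_le_mul_of_nonneg_left (by omega) hgz.le
    omega
  obtain ⟨m, rfl⟩ : ∃ m : ℕ, (m : ℤ) = M := ⟨M.toNat, Int.toNat_of_nonneg (by omega)⟩
  have h1 := Pool.Agent.H41.TG.sharp g hgz m (by omega) θ r (by
    intro n hn hlt'
    obtain ⟨x, hx, y, hy, rfl⟩ := h n hn hlt'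
    rw [← hM]
    exact dvd_sub hx hy)
  have e : (g : ℝ) / w = 1 / m := by
    rw [hM]
    push_cast
    have : (g : ℝ) ≠ 0 := by exact_mod_cast hg.ne'
    have hm0 : (m : ℝ) ≠ 0 := by
      have : (2 : ℤ) ≤ m := hM2
      exact_mod_cast (by omega : m ≠ 0)
    field_simp
  rw [e]
  exact h1

/-- **(1)** Let `u, v` be positive integers with greatest common divisor `g`. If `A` is not
bounded in connections by steps `u`, `v`, `u + v`, there are `θ`, `a`, `b` with
`a v + b u = g`, `u θ + a` and `v θ - b` integers, such that every multiple `n` of `g` with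
`n θ` at distance less than `max |a| |b| |a - b| ≥ g / (u + v)` from the nearest integer is in
`A - A`; if only the steps `u`, `v` are used, this holds with `|a| + |b| ≥ g / max u v`. For the
multiples of `u + v` (of `max u v ≠ g`) no radius above `g / (u + v)` (above `g / max u v`)
is possible. **(2)** If `A` is not empty and consists of blocks of consecutive integers
separated by holes of lengths at most `v ≥ 1`, and every hole together with the two neighbouring
blocks has length at least `v + 1`, there is `θ` such that every `n` with `n θ` at distance less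
than `1 / (v + 1)` from the nearest integer is in `A - A`. -/
theorem result :
    (∀ u v : ℤ, 0 < u → 0 < v →
      (∀ A : Set ℤ, Linked A {u, v, u + v} → ∃ θ a b : ℝ,
        a * v + b * u = Int.gcd u v ∧ (∃ k : ℤ, u * θ + a = k) ∧ (∃ k : ℤ, v * θ - b = k) ∧
        (Int.gcd u v : ℝ) / (u + v) ≤ max |a| (max |b| |a - b|) ∧
        Bohr A (Int.gcd u v) θ (max |a| (max |b| |a - b|))) ∧
      (∀ A : Set ℤ, Linked A {u, v} → ∃ θ a b : ℝ,
        a * v + b * u = Int.gcd u v ∧ (∃ k : ℤ, u * θ + a = k) ∧ (∃ k : ℤ, v * θ - b = k) ∧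
        (Int.gcd u v : ℝ) / (max u v : ℤ) ≤ |a| + |b| ∧
        Bohr A (Int.gcd u v) θ (|a| + |b|)) ∧
      (∀ θ r : ℝ, Bohr {x | u + v ∣ x} (Int.gcd u v) θ r →
        r ≤ (Int.gcd u v : ℝ) / (u + v)) ∧
      (u ≠ v → ∀ θ r : ℝ, Bohr {x | max u v ∣ x} (Int.gcd u v) θ r →
        r ≤ (Int.gcd u v : ℝ) / (max u v : ℤ))) ∧
    (∀ (v : ℕ) (A : Set ℤ), 1 ≤ v → A.Nonempty →
      (∀ b ∈ A, b + 1 ∈ A ∨ ∃ i l j : ℕ, l ≤ v ∧ 1 ≤ j ∧ v ≤ i + l + j ∧
        (∀ t : ℕ, t ≤ i → b - t ∈ A) ∧ ∀ t : ℕ, 1 ≤ t → t ≤ j → b + l + t ∈ A) →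
      ∃ θ : ℝ, Bohr A 1 θ (1 / (v + 1))) := by
  refine ⟨fun u v hu hv => ⟨fun A hA => ?_, fun A hA => ?_, fun θ r h => ?_, fun huv θ r h => ?_⟩,
    fun v A hv hne hA => ?_⟩
  · obtain ⟨θ, a, b, hab, h1, h2, h3⟩ := Pool.Agent.H41.PC.three u v hu hv A hA.conn
    exact ⟨θ, a, b, hab, h1, h2, bound_max u v hu hv a b hab, h3⟩
  · obtain ⟨θ, a, b, hab, h1, h2, h3⟩ := Pool.Agent.H41.PC.two u v hu hv A hA.conn
    exact ⟨θ, a, b, hab, h1, h2, bound_add u v hu hv a b hab, h3⟩
  · have hg : 0 < Int.gcd u v := Int.gcd_pos_of_ne_zero_left v hu.ne'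
    have h1 : (Int.gcd u v : ℤ) ∣ u := Int.gcd_dvd_left u v
    have h2 : (Int.gcd u v : ℤ) ∣ v := Int.gcd_dvd_right u v
    have h3 := sharp_dvd (u + v) (Int.gcd u v) hg (dvd_add h1 h2)
      (by have := Int.le_of_dvd hu h1; omega) θ r h
    rw [show (u : ℝ) + v = ((u + v : ℤ) : ℝ) by push_cast; ring]
    exact h3
  · have hg : 0 < Int.gcd u v := Int.gcd_pos_of_ne_zero_left v hu.ne'
    have h1 : (Int.gcd u v : ℤ) ∣ u := Int.gcd_dvd_left u v
    have h2 : (Int.gcd u v : ℤ) ∣ v := Int.gcd_dvd_right u v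
    have h4 := Int.le_of_dvd hu h1
    have h5 := Int.le_of_dvd hv h2
    refine sharp_dvd (max u v) (Int.gcd u v) hg ?_ ?_ θ r h
    · rcases max_choice u v with h3 | h3
      · rw [h3]; exact h1
      · rw [h3]; exact h2
    · omega
  · obtain ⟨θ, a, b, hab, -, -, h3⟩ := Pool.Agent.H41.PC.three 1 v one_pos
      (by exact_mod_cast hv) A (Pool.Agent.H41.PC.blocks v A hne hA)
    have h6 := bound_max 1 v one_pos (by exact_mod_cast hv) a b hab
    refine ⟨θ, fun n hn hlt => h3 n (by simp) (lt_of_lt_of_le hlt ?_)⟩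
    have e : (1 : ℝ) / (v + 1) = (Int.gcd 1 (v : ℤ) : ℝ) /
        (((1 : ℤ) : ℝ) + (((v : ℕ) : ℤ) : ℝ)) := by
      simp [add_comm]
    rw [e]
    exact h6

end Pool.Agent.Results.MP_83445a_co.BoundedComponents
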