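import Pool.Agent.H61.KZ.Main

set_option autoImplicit false

namespace Pool.Agent.Results.MP_83445a_co.CircleThreshold

open H61KZ

theorem nn_frac (q : ℕ) (hq : 0 < q) (j : ℤ) (hj : ¬ ((q : ℤ) ∣ j)) :
    1 / (q : ℝ) ≤ nn ((j : ℝ) / q) := by
  unfold nn
  set z := round ((j : ℝ) / q) with hz
  have hq' : (0 : ℝ) < q := by exact_mod_cast hq
  have h1 : j - q * z ≠ 0 := by
    intro h
    exact hj ⟨z, by linarith⟩
  have h2 : (1 : ℝ) ≤ |((j - q * z : ℤ) : ℝ)| := by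
    have : (1 : ℤ) ≤ |j - q * z| := Int.one_le_abs h1
    exact_mod_cast this
  have e : (j : ℝ) / q - z = ((j - q * z : ℤ) : ℝ) / q := by
    push_cast
    field_simp
  rw [e, abs_div, abs_of_pos hq']
  gcongr

theorem part1 (f : ℤ → ℝ) (δ : ℝ) (hδ : 1 / 4 < δ) :
    ∃ θ : ℝ, ∀ n : ℤ, |θ * n - round (θ * n)| < δ →
      ∃ x : ℤ, |(f (x + n) - f x) - round (f (x + n) - f x)| < δ := by
  obtain ⟨θ, hθ⟩ := main f δ hδ
  refine ⟨θ, fun n hn => ?_⟩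
  by_contra hcon
  push Not at hcon
  exact absurd (hθ n hcon) (not_le.2 hn)

theorem part3 (c : ℤ → Fin 3) :
    ∃ θ : ℝ, ∀ n : ℤ, |θ * n - round (θ * n)| < 1 / 3 → ∃ x : ℤ, c (x + n) = c x := by
  obtain ⟨θ, hθ⟩ := part1 (fun n => (((c n : ℕ) : ℤ) : ℝ) / 3) (1 / 3) (by norm_num)
  refine ⟨θ, fun n hn => ?_⟩
  obtain ⟨x, hx⟩ := hθ n hn
  refine ⟨x, ?_⟩
  by_contra hne
  have h1 : ¬ (((3 : ℕ) : ℤ) ∣ ((c (x + n) : ℕ) : ℤ) - ((c x : ℕ) : ℤ)) := by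
    intro hd
    apply hne
    have a := (c (x + n)).isLt
    have b := (c x).isLt
    apply Fin.ext
    omega
  have h2 := nn_frac 3 (by norm_num) _ h1
  unfold nn at h2
  have e : ((((c (x + n) : ℕ) : ℤ) - ((c x : ℕ) : ℤ) : ℤ) : ℝ) / ((3 : ℕ) : ℝ) =
      (((c (x + n) : ℕ) : ℤ) : ℝ) / 3 - (((c x : ℕ) : ℤ) : ℝ) / 3 := by
    push_cast
    ring
  rw [e] at h2
  push_cast at h2 hx
  linarith

theorem part4 (A : Fin 3 → Set ℤ) (hA : ∀ n : ℤ, ∃ i, n ∈ A i) :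
    ∃ θ : ℝ, ∀ n : ℤ, |θ * n - round (θ * n)| < 1 / 3 →
      ∃ i, ∃ a ∈ A i, ∃ b ∈ A i, n = a - b := by
  choose c hc using hA
  obtain ⟨θ, hθ⟩ := part3 c
  refine ⟨θ, fun n hnn => ?_⟩
  obtain ⟨x, hx⟩ := hθ n hnn
  exact ⟨c x, x + n, hx ▸ hc (x + n), x, hc x, by ring⟩

/-- For a small scale `δ` and a large power of two `q`, no character keeps all odd numbers and
all odd multiples of `q` at distance at least `δ` from zero. -/
theorem small_scale (θ δ : ℝ) (hδ : 0 < δ) (M k : ℕ) (hM0 : 0 < M)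
    (hM : 1 / ((M : ℝ) + 1) < 2 * δ) (hk : 2 * M ≤ 2 ^ k) :
    ∃ n : ℤ, (Odd n ∨ ∃ b : ℤ, Odd b ∧ n = 2 ^ k * b) ∧ nn (θ * n) < δ := by
  obtain ⟨m, hm0, hmM, hm⟩ := Real.exists_nat_abs_mul_sub_round_le (2 * θ) hM0
  set z : ℤ := round ((m : ℝ) * (2 * θ)) with hz
  set r : ℝ := (m : ℝ) * (2 * θ) - z with hr
  by_cases h0 : r = 0
  · obtain ⟨a, b, hb, hab⟩ := Nat.exists_eq_two_pow_mul_odd hm0.ne'
    have hbpos : 1 ≤ b := by
      rcases hb with ⟨c, hc⟩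
      omega
    have hak : a + 1 ≤ k := by
      have h1 : 2 ^ (a + 1) ≤ 2 ^ k := by
        calc 2 ^ (a + 1) = 2 * 2 ^ a := by ring
          _ ≤ 2 * (2 ^ a * b) := by
            have : 2 ^ a * 1 ≤ 2 ^ a * b := Nat.mul_le_mul_left _ hbpos
            omega
          _ = 2 * m := by rw [← hab]
          _ ≤ 2 * M := by omega
          _ ≤ 2 ^ k := hk
      exact (Nat.pow_le_pow_iff_right (by norm_num)).1 h1
    refine ⟨2 ^ k * (b : ℤ), Or.inr ⟨b, by exact_mod_cast hb, rfl⟩, ?_⟩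
    have e : θ * ((2 ^ k * (b : ℤ) : ℤ) : ℝ) = ((2 ^ (k - (a + 1)) * z : ℤ) : ℝ) := by
      have h2 : (m : ℝ) * (2 * θ) = z := by linarith
      have h3 : (m : ℝ) = 2 ^ a * (b : ℝ) := by rw [hab]; push_cast; ring
      have h4 : (2 : ℝ) ^ k = 2 ^ (k - (a + 1)) * 2 ^ (a + 1) := by
        rw [← pow_add]
        congr 1
        omega
      push_cast
      rw [← h2, h3, h4, pow_succ]
      ring
    have h5 := nn_le (θ * ((2 ^ k * (b : ℤ) : ℤ) : ℝ)) (2 ^ (k - (a + 1)) * z)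
    rw [e] at h5 ⊢
    rw [sub_self, abs_zero] at h5
    linarith
  · set j : ℤ := -round (θ / r) with hj
    refine ⟨1 + 2 * m * j, Or.inl ⟨m * j, by ring⟩, ?_⟩
    refine (nn_le _ (j * z)).trans_lt ?_
    have hrlt : |r| < 2 * δ := lt_of_le_of_lt hm (by simpa using hM)
    have e : θ * ((1 + 2 * m * j : ℤ) : ℝ) - ((j * z : ℤ) : ℝ) = (θ / r - round (θ / r)) * r := by
      have h2 : (m : ℝ) * (2 * θ) = z + r := by linarith
      have h3 : (θ / r - round (θ / r)) * r = θ + j * r := by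
        rw [hj]
        push_cast
        field_simp
        ring
      rw [h3]
      push_cast
      have h4 : θ * (1 + 2 * (m : ℝ) * j) = θ + j * ((m : ℝ) * (2 * θ)) := by ring
      rw [h4, h2]
      ring
    rw [e, abs_mul]
    have h5 := abs_sub_round (θ / r)
    have h6 : 0 ≤ |r| := abs_nonneg r
    nlinarith

theorem part2 (δ : ℝ) (hδ0 : 0 < δ) :
    ∃ f : ℤ → ℝ, ∀ θ : ℝ, ∃ n : ℤ, |θ * n - round (θ * n)| < δ ∧
      ∀ x : ℤ, 1 / 4 ≤ |(f (x + n) - f x) - round (f (x + n) - f x)| := by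
  obtain ⟨M, hM⟩ := exists_nat_gt (1 / (2 * δ))
  have hMpos : 0 < M := by
    have h1 : (0 : ℝ) < 1 / (2 * δ) := by positivity
    have h2 : (0 : ℝ) < M := h1.trans hM
    exact_mod_cast h2
  have hM' : 1 / ((M : ℝ) + 1) < 2 * δ := by
    rw [div_lt_iff₀ (by positivity)]
    rw [div_lt_iff₀ (by positivity)] at hM
    nlinarith
  obtain ⟨k, hk1, hk⟩ : ∃ k : ℕ, 1 ≤ k ∧ 2 * M ≤ 2 ^ k :=
    ⟨2 * M, by omega, Nat.lt_two_pow_self.le⟩
  refine ⟨fun n => ((n % 2 + 2 * ((n / 2 ^ k) % 2) : ℤ) : ℝ) / 4, fun θ => ?_⟩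
  obtain ⟨n, hn, hlt⟩ := small_scale θ δ hδ0 M k hMpos hM' hk
  refine ⟨n, hlt, fun x => ?_⟩
  have hq : (2 : ℤ) ^ k ≠ 0 := by positivity
  have h1 : ¬ (((4 : ℕ) : ℤ) ∣ ((x + n) % 2 + 2 * (((x + n) / 2 ^ k) % 2)) -
      (x % 2 + 2 * ((x / 2 ^ k) % 2))) := by
    rcases hn with ⟨c, hc⟩ | ⟨b, ⟨c, hc⟩, hb⟩
    · generalize (x + n) / 2 ^ k = u
      generalize x / 2 ^ k = v
      omega
    · have e1 : (x + n) / 2 ^ k = x / 2 ^ k + b := by
        rw [hb]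
        exact Int.add_mul_ediv_left _ _ hq
      have e2 : (x + n) % 2 = x % 2 := by
        have : (2 : ℤ) ∣ n := by
          rw [hb]
          exact Dvd.dvd.mul_right (dvd_pow_self 2 (by omega)) b
        omega
      rw [e1, e2]
      generalize x / 2 ^ k = v
      omega
  have h2 := nn_frac 4 (by norm_num) _ h1
  unfold nn at h2
  have e : (((((x + n) % 2 + 2 * (((x + n) / 2 ^ k) % 2)) -
      (x % 2 + 2 * ((x / 2 ^ k) % 2)) : ℤ)) : ℝ) / ((4 : ℕ) : ℝ) =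
      (((x + n) % 2 + 2 * (((x + n) / 2 ^ k) % 2) : ℤ) : ℝ) / 4 -
        ((x % 2 + 2 * ((x / 2 ^ k) % 2) : ℤ) : ℝ) / 4 := by
    push_cast
    ring
  rw [e] at h2
  push_cast at h2 ⊢
  linarith

/-- The threshold `1/4` for circle-valued functions: for every `δ > 1/4` every circle-valued
function on the integers comes back within `δ` along the whole one-dimensional Bohr set of radius
`δ` of some frequency, and for `δ ≤ 1/4` no radius works for all functions. In particular three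
sets covering the integers have a one-dimensional Bohr set of radius `1/3` in the union of their
difference sets. -/
theorem result :
    (∀ δ : ℝ, 1 / 4 < δ → ∀ f : ℤ → ℝ, ∃ θ : ℝ, ∀ n : ℤ, |θ * n - round (θ * n)| < δ →
      ∃ x : ℤ, |(f (x + n) - f x) - round (f (x + n) - f x)| < δ) ∧
    (∀ δ : ℝ, δ ≤ 1 / 4 → ∀ ε : ℝ, 0 < ε → ∃ f : ℤ → ℝ, ∀ θ : ℝ, ∃ n : ℤ,
      |θ * n - round (θ * n)| < ε ∧
      ∀ x : ℤ, δ ≤ |(f (x + n) - f x) - round (f (x + n) - f x)|) ∧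
    (∀ A : Fin 3 → Set ℤ, (∀ n : ℤ, ∃ i, n ∈ A i) → ∃ θ : ℝ, ∀ n : ℤ,
      |θ * n - round (θ * n)| < 1 / 3 → ∃ i, ∃ a ∈ A i, ∃ b ∈ A i, n = a - b) := by
  refine ⟨fun δ h f => part1 f δ h, fun δ hδ ε hε => ?_, part4⟩
  obtain ⟨f, hf⟩ := part2 ε hε
  refine ⟨f, fun θ => ?_⟩
  obtain ⟨n, h1, h2⟩ := hf θ
  exact ⟨n, h1, fun x => hδ.trans (h2 x)⟩

end Pool.Agent.Results.MP_83445a_co.CircleThreshold
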