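import Mathlib

/-!
# Difference sets of sets read off from digit machines and rotations

Let `lam > 1` be a real number and let `child : ℕ → ℕ` be the function that sends `y` to its first
child; the children of `y` are `child y, ..., child (y + 1) - 1`. For an integer base `k` we have
`child y = k y` and the children are `k y, ..., k y + k - 1`; the function `child y = ⌈lam y - c⌉`
gives a numeration system for every real `lam > 1` (`local_ceil` below), for example the Zeckendorf
expansion if `lam` is the golden ratio and `c = 2 - lam`. A point `g x` of a compact space is computed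
along the line of ancestors of `x`: `g (child y + j) = T j (g y, y α)`. If `A` contains all `x` for
which `(g x, x α)` lies in an open set `U`, and `(g x, x α)` lies in a compact subset `K` of `U` for a
syndetic set of `x`, then `A - A` contains a Bohr set.
-/

set_option autoImplicit false

open Topology

namespace Pool.Agent.Results.MP_83445a_co.DigitMachines

/-- The point `x α` of the torus `(R/Z)^d`. -/
noncomputable def phase {d : ℕ} (α : Fin d → ℝ) (x : ℕ) : Fin d → UnitAddCircle :=
  fun i => ((α i * x : ℝ) : UnitAddCircle)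

private theorem phase_add {d : ℕ} (α : Fin d → ℝ) (u b : ℕ) :
    phase α (u + b) = phase α u + phase α b := by
  funext i
  simp only [phase, Pi.add_apply]
  rw [← AddCircle.coe_add]
  congr 1
  push_cast
  ring

/-! ### Examples for the hypotheses (not used in the proof) -/

/-- Two powers of a map of a compact space with equicontinuous powers are close: the hypothesis on
`T 0` in `result` is satisfied if the powers of `u ↦ T 0 (u, 0)` are equicontinuous. -/
theorem close_powers {X : Type*} [MetricSpace X] [CompactSpace X] (T : X → X)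
    (hT : ∀ η > 0, ∃ δ > 0, ∀ (t : ℕ) (u v : X), dist u v < δ → dist (T^[t] u) (T^[t] v) < η)
    {η : ℝ} (hη : 0 < η) :
    ∃ r s : ℕ, r < s ∧ ∀ u, dist (T^[r] u) (T^[s] u) < η := by
  obtain ⟨δ, hδ, hTn⟩ := hT (η / 4) (by positivity)
  obtain ⟨t, -, htf, htc⟩ :=
    finite_cover_balls_of_compact (isCompact_univ : IsCompact (Set.univ : Set X))
      (lt_min hδ (by positivity : 0 < η / 4))
  have hex : ∀ x : X, ∃ c, c ∈ t ∧ dist x c < min δ (η / 4) := by
    intro x
    have hx := htc (Set.mem_univ x)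
    rw [Set.mem_iUnion₂] at hx
    obtain ⟨c, hc, hxc⟩ := hx
    exact ⟨c, hc, Metric.mem_ball.1 hxc⟩
  choose c hc using hex
  have : Finite ↥t := htf.to_subtype
  obtain ⟨r, s, hrs, hcode⟩ := Finite.exists_ne_map_eq_of_infinite
    (fun n : ℕ => fun p : ↥t => (⟨c (T^[n] p), (hc _).1⟩ : ↥t))
  have key : ∀ u, dist (T^[r] u) (T^[s] u) < η := by
    intro u
    have h1 : c (T^[r] (c u)) = c (T^[s] (c u)) := by
      have h := congrFun hcode ⟨c u, (hc u).1⟩
      exact congrArg Subtype.val h
    have h2 := hTn r u (c u) ((hc u).2.trans_le (min_le_left _ _))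
    have h3 := hTn s u (c u) ((hc u).2.trans_le (min_le_left _ _))
    have h4 := (hc (T^[r] (c u))).2.trans_le (min_le_right _ _)
    have h5 := (hc (T^[s] (c u))).2.trans_le (min_le_right _ _)
    rw [h1] at h4
    have t1 := dist_triangle (T^[r] u) (T^[r] (c u)) (T^[s] u)
    have t2 := dist_triangle (T^[r] (c u)) (c (T^[s] (c u))) (T^[s] u)
    have t3 := dist_triangle (c (T^[s] (c u))) (T^[s] (c u)) (T^[s] u)
    rw [dist_comm (c (T^[s] (c u))) (T^[s] (c u)), dist_comm (T^[s] (c u)) (T^[s] u)] at t3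
    linarith
  rcases lt_or_gt_of_ne hrs with h | h
  · exact ⟨r, s, h, key⟩
  · exact ⟨s, r, h, fun u => by rw [dist_comm]; exact key u⟩

private theorem ceil_stable {z : ℝ} (hz : -1 < z) (hz' : ∀ m : ℕ, z ≠ m) :
    ∃ e > 0, ∀ (v : ℕ) (w : ℝ), |w| < e → ⌈(v : ℝ) + z + w⌉₊ = v + ⌈z⌉₊ := by
  have h1 : z < (⌈z⌉₊ : ℝ) := lt_of_le_of_ne (Nat.le_ceil z) (hz' _)
  have h2 : (⌈z⌉₊ : ℝ) - 1 < z := by
    by_cases h0 : ⌈z⌉₊ = 0
    · rw [h0]
      push_cast
      linarith
    · obtain ⟨q, hq⟩ := Nat.exists_eq_succ_of_ne_zero h0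
      have h3 : q < ⌈z⌉₊ := by omega
      rw [Nat.lt_ceil] at h3
      rw [hq]
      push_cast
      linarith
  refine ⟨min ((⌈z⌉₊ : ℝ) - z) (z - ((⌈z⌉₊ : ℝ) - 1)), lt_min (by linarith) (by linarith), ?_⟩
  intro v w hw
  have hw1 := (abs_lt.1 (hw.trans_le (min_le_left _ _))).2
  have hw2 := (abs_lt.1 (hw.trans_le (min_le_right _ _))).1
  apply le_antisymm
  · rw [Nat.ceil_le]
    push_cast
    linarith
  · rcases Nat.eq_zero_or_pos (v + ⌈z⌉₊) with h0 | h0
    · rw [h0]
      exact Nat.zero_le _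
    · obtain ⟨q, hq⟩ := Nat.exists_eq_succ_of_ne_zero (by omega : v + ⌈z⌉₊ ≠ 0)
      rw [hq]
      have h4 : q < ⌈(v : ℝ) + z + w⌉₊ := by
        rw [Nat.lt_ceil]
        have h5 : ((v + ⌈z⌉₊ : ℕ) : ℝ) = ((q + 1 : ℕ) : ℝ) := by rw [hq]
        push_cast at h5
        linarith
      exact h4

/-- The hypothesis on `child` in `result` is satisfied for `child y = ⌈lam y - c⌉`. -/
theorem local_ceil {lam c : ℝ} (hlam : 1 < lam) (hc1 : c < 1) (hc : ∀ j m : ℕ, lam * j - c ≠ m)
    (I : ℕ) : ∃ e > 0, ∀ u v : ℕ, |lam * u - v| < e → ∀ i < I,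
    ⌈lam * ((u + i : ℕ) : ℝ) - c⌉₊ = v + ⌈lam * i - c⌉₊ := by
  induction I with
  | zero => exact ⟨1, one_pos, fun u v _ i hi => absurd hi (Nat.not_lt_zero i)⟩
  | succ I ih =>
    obtain ⟨e, he, h⟩ := ih
    have hI : (0 : ℝ) ≤ lam * I := by positivity
    obtain ⟨e', he', h'⟩ := ceil_stable (z := lam * I - c) (by linarith) (hc I)
    refine ⟨min e e', lt_min he he', ?_⟩
    intro u v huv i hi
    rcases Nat.lt_succ_iff_lt_or_eq.1 hi with hi | rfl
    · exact h u v (huv.trans_le (min_le_left _ _)) i hi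
    · have h2 := h' v (lam * u - v) (huv.trans_le (min_le_right _ _))
      have e1 : (v : ℝ) + (lam * i - c) + (lam * u - v) = lam * ((u + i : ℕ) : ℝ) - c := by
        push_cast
        ring
      rw [e1] at h2
      exact h2

/-! ### Descendants of zero -/

section

variable {child : ℕ → ℕ} (h0 : child 0 = 0) (h1 : ∀ i, 1 ≤ i → i < child i)

/-- `i` is a descendant of `0` after `m` steps -/
private def Dep (child : ℕ → ℕ) : ℕ → ℕ → Prop
  | 0, i => i = 0
  | m + 1, i => ∃ i' j, i = child i' + j ∧ i < child (i' + 1) ∧ Dep child m i'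

include h0 h1 in
private theorem dep_succ (m i : ℕ) (h : Dep child m i) : Dep child (m + 1) i := by
  induction m generalizing i with
  | zero =>
    have h2 : i = 0 := h
    have h3 := h1 1 le_rfl
    exact ⟨0, 0, by rw [h0, h2], by rw [h2, zero_add]; omega, rfl⟩
  | succ m ih =>
    obtain ⟨i', j, h2, h3, h4⟩ := h
    exact ⟨i', j, h2, h3, ih i' h4⟩

include h0 h1 in
private theorem dep_le {m m' i : ℕ} (hm : m ≤ m') (h : Dep child m i) : Dep child m' i := by
  induction hm with
  | refl => exact h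
  | step _ ih => exact dep_succ h0 h1 _ _ ih

include h0 h1 in
private theorem exists_dep (i : ℕ) : ∃ m, Dep child m i := by
  induction i using Nat.strong_induction_on with
  | _ i ih =>
    rcases Nat.eq_zero_or_pos i with hi | hi
    · exact ⟨0, hi⟩
    · have hex : ∃ q, i < child (q + 1) := ⟨i, (Nat.lt_succ_self i).trans (h1 (i + 1) (by omega))⟩
      classical
      obtain ⟨q, hq⟩ : ∃ q, q = Nat.find hex := ⟨_, rfl⟩
      have hq1 : i < child (q + 1) := by
        rw [hq]
        exact Nat.find_spec hex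
      have hq2 : child q ≤ i := by
        rcases Nat.eq_zero_or_pos q with h | h
        · rw [h, h0]
          exact Nat.zero_le _
        · have h3 := Nat.find_min hex (m := q - 1) (by omega)
          rw [Nat.sub_add_cancel h, not_lt] at h3
          exact h3
      have hqi : q < i := by
        by_contra hcon
        have h4 := h1 q (by omega)
        omega
      obtain ⟨m, hm⟩ := ih q hqi
      exact ⟨m + 1, q, i - child q, by omega, hq1, hm⟩

include h0 h1 in
private theorem exists_dep_all (L : ℕ) : ∃ m, ∀ i < L, Dep child m i := by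
  induction L with
  | zero => exact ⟨0, fun i hi => absurd hi (Nat.not_lt_zero i)⟩
  | succ L ih =>
    obtain ⟨m, hm⟩ := ih
    obtain ⟨m', hm'⟩ := exists_dep h0 h1 L
    refine ⟨max m m', fun i hi => ?_⟩
    rcases Nat.lt_succ_iff_lt_or_eq.1 hi with hi | rfl
    · exact dep_le h0 h1 (le_max_left _ _) (hm i hi)
    · exact dep_le h0 h1 (le_max_right _ _) hm'

/-! ### Chains -/

/-- `Y 0, ..., Y N` is almost a geometric progression with small phases -/
private def Chain (lam : ℝ) {d : ℕ} (α : Fin d → ℝ) (e : ℝ) (N : ℕ) (Y : ℕ → ℕ) : Prop :=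
  (∀ t < N, |lam * Y t - Y (t + 1)| < e) ∧ ∀ t ≤ N, ‖phase α (Y t)‖ < e

variable {lam : ℝ} {d : ℕ} {α : Fin d → ℝ}

private theorem Chain.mono {e e' : ℝ} {N : ℕ} {Y : ℕ → ℕ}
    (h : Chain lam α e N Y) (he : e ≤ e') : Chain lam α e' N Y :=
  ⟨fun t ht => (h.1 t ht).trans_le he, fun t ht => (h.2 t ht).trans_le he⟩

private theorem Chain.shift {e : ℝ} {N : ℕ} {Y : ℕ → ℕ}
    (h : Chain lam α e N Y) {a m : ℕ} (ham : a + m ≤ N) :
    Chain lam α e m (fun t => Y (a + t)) :=
  ⟨fun t ht => h.1 (a + t) (by omega), fun t ht => h.2 (a + t) (by omega)⟩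

private theorem Chain.start {e : ℝ} {N : ℕ} {Y : ℕ → ℕ}
    (h : Chain lam α e (N + 1) Y) : Chain lam α e N Y :=
  ⟨fun t ht => h.1 t (by omega), fun t ht => h.2 t (by omega)⟩

variable (hloc : ∀ I : ℕ, ∃ e > 0, ∀ u v : ℕ, |lam * u - v| < e → ‖phase α u‖ < e →
    ∀ i < I, child (u + i) = v + child i)
  {X : Type*} [MetricSpace X] [CompactSpace X]
  {T : ℕ → X × (Fin d → UnitAddCircle) → X} {g : ℕ → X}
  (hT : ∀ j, Continuous (T j))
  (hg : ∀ y j, child y + j < child (y + 1) → g (child y + j) = T j (g y, phase α y))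

include h0 h1 hloc hT hg in
private theorem zeros (t : ℕ) : ∀ η > 0, ∃ ε > 0, ∀ Y : ℕ → ℕ, Chain lam α ε t Y →
      dist (g (Y t)) ((fun u => T 0 (u, 0))^[t] (g (Y 0))) < η := by
  induction t with
  | zero =>
    intro η hη
    refine ⟨1, one_pos, fun Y _ => ?_⟩
    rw [Function.iterate_zero, id_eq, dist_self]
    exact hη
  | succ t ih =>
    intro η hη
    obtain ⟨δ, hδ, hu⟩ := Metric.uniformContinuous_iff.1
      (CompactSpace.uniformContinuous_of_continuous (hT 0)) η hη
    obtain ⟨ε, hε, h⟩ := ih δ hδ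
    obtain ⟨e, he, hch⟩ := hloc 2
    refine ⟨min (min ε δ) e, lt_min (lt_min hε hδ) he, ?_⟩
    intro Y hY
    have h2 := h Y (hY.mono ((min_le_left _ _).trans (min_le_left _ _))).start
    have h3 : ‖phase α (Y t)‖ < δ :=
      (hY.2 t (Nat.le_succ t)).trans_le ((min_le_left _ _).trans (min_le_right _ _))
    have h4 := hch (Y t) (Y (t + 1)) ((hY.1 t (Nat.lt_succ_self t)).trans_le (min_le_right _ _))
      ((hY.2 t (Nat.le_succ t)).trans_le (min_le_right _ _))
    have h5 : child (Y t) = Y (t + 1) := by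
      have h := h4 0 (by norm_num)
      rwa [h0, add_zero, add_zero] at h
    have h6 : child (Y t) + 0 < child (Y t + 1) := by
      rw [h4 1 (by norm_num), h5]
      have h6 := h1 1 le_rfl
      omega
    have h7 := hg (Y t) 0 h6
    rw [add_zero, h5] at h7
    rw [h7, Function.iterate_succ_apply']
    refine hu ?_
    rw [Prod.dist_eq, max_lt_iff]
    refine ⟨h2, ?_⟩
    show dist (phase α (Y t)) 0 < δ
    rw [dist_zero_right]
    exact h3

include hloc hT hg in
private theorem digits (m : ℕ) : ∀ i, Dep child m i → ∀ η > 0, ∃ ε > 0, ∀ Y Y' : ℕ → ℕ,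
    Chain lam α ε m Y → Chain lam α ε m Y' → dist (g (Y 0)) (g (Y' 0)) < ε →
      dist (g (Y m + i)) (g (Y' m + i)) < η := by
  induction m with
  | zero =>
    intro i hi η hη
    have h2 : i = 0 := hi
    refine ⟨η, hη, fun Y Y' _ _ h => ?_⟩
    rw [h2, add_zero, add_zero]
    exact h
  | succ m ih =>
    intro i hi η hη
    obtain ⟨i', j, hij, hij', hdep⟩ := hi
    obtain ⟨δ, hδ, hu⟩ := Metric.uniformContinuous_iff.1
      (CompactSpace.uniformContinuous_of_continuous (hT j)) η hη
    obtain ⟨ε, hε, h⟩ := ih i' hdep δ hδ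
    obtain ⟨e, he, hch⟩ := hloc (i' + 2)
    refine ⟨min (min ε (δ / 2)) e, lt_min (lt_min hε (by positivity)) he, ?_⟩
    intro Y Y' hY hY' h2
    have hε' : min (min ε (δ / 2)) e ≤ ε := (min_le_left _ _).trans (min_le_left _ _)
    have hδ' : min (min ε (δ / 2)) e ≤ δ / 2 := (min_le_left _ _).trans (min_le_right _ _)
    have h3 := h Y Y' (hY.mono hε').start (hY'.mono hε').start (h2.trans_le hε')
    have step : ∀ Z : ℕ → ℕ, Chain lam α (min (min ε (δ / 2)) e) (m + 1) Z →
        g (Z (m + 1) + i) = T j (g (Z m + i'), phase α (Z m + i')) := by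
      intro Z hZ
      have h3 := hch (Z m) (Z (m + 1)) ((hZ.1 m (Nat.lt_succ_self m)).trans_le (min_le_right _ _))
        ((hZ.2 m (Nat.le_succ m)).trans_le (min_le_right _ _))
      have h4 := h3 i' (by omega)
      have h5 := h3 (i' + 1) (by omega)
      rw [← add_assoc] at h5
      have h6 : child (Z m + i') + j < child (Z m + i' + 1) := by
        rw [h4, h5]
        omega
      have h7 := hg (Z m + i') j h6
      rw [h4, add_assoc, ← hij] at h7
      exact h7
    rw [step Y hY, step Y' hY']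
    refine hu ?_
    rw [Prod.dist_eq, max_lt_iff]
    refine ⟨h3, ?_⟩
    show dist (phase α (Y m + i')) (phase α (Y' m + i')) < δ
    rw [phase_add, phase_add, dist_eq_norm, add_sub_add_right_eq_sub]
    have h8 := (hY.2 m (Nat.le_succ m)).trans_le hδ'
    have h9 := (hY'.2 m (Nat.le_succ m)).trans_le hδ'
    exact (norm_sub_le _ _).trans_lt (by linarith)

include hloc hT hg in
private theorem digits_all (m L : ℕ) (hdep : ∀ i < L, Dep child m i) : ∀ η > 0, ∃ ε > 0,
    ∀ Y Y' : ℕ → ℕ, Chain lam α ε m Y → Chain lam α ε m Y' → dist (g (Y 0)) (g (Y' 0)) < ε →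
      ∀ i < L, dist (g (Y m + i)) (g (Y' m + i)) < η := by
  intro η hη
  induction L with
  | zero => exact ⟨1, one_pos, fun Y Y' _ _ _ i hi => absurd hi (Nat.not_lt_zero i)⟩
  | succ L ih =>
    obtain ⟨ε, hε, h⟩ := ih fun i hi => hdep i (hi.trans (Nat.lt_succ_self L))
    obtain ⟨ε', hε', h'⟩ := digits hloc hT hg m L (hdep L (Nat.lt_succ_self L)) η hη
    refine ⟨min ε ε', lt_min hε hε', ?_⟩
    intro Y Y' hY hY' h2 i hi
    rcases Nat.lt_succ_iff_lt_or_eq.1 hi with hi | rfl
    · exact h Y Y' (hY.mono (min_le_left _ _)) (hY'.mono (min_le_left _ _))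
        (h2.trans_le (min_le_left _ _)) i hi
    · exact h' Y Y' (hY.mono (min_le_right _ _)) (hY'.mono (min_le_right _ _))
        (h2.trans_le (min_le_right _ _))

end

private theorem coe_norm_le (x : ℝ) : ‖(x : UnitAddCircle)‖ ≤ |x| := by
  rw [UnitAddCircle.norm_eq]
  have h := round_le x 0
  rwa [Int.cast_zero, sub_zero] at h

/-- **Theorem.** Let `α 1, ..., α d` be real numbers, `lam > 1`, and let `child : ℕ → ℕ` satisfy
`child 0 = 0`, `i < child i` for `i ≥ 1`, and: if `lam u` is close to the natural number `v` and all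
`u α i` are close to integers, then `child (u + i) = v + child i` for all small `i` (`hloc`). Let `X`
be a compact metric space and let the maps `T j : X × (R/Z)^d → X` be continuous. Suppose that for
every `η > 0` two different powers of the map `u ↦ T 0 (u, 0)` are uniformly `η`-close, as is the case
if its powers are equicontinuous. Let `g (child y + j) = T j (g y, y α)` whenever
`child y + j < child (y + 1)`. Let `K ⊆ U`, `K` compact, `U` open, let `(g x, x α) ∈ K` for a syndetic
set of natural numbers `x`, and let `A` contain all natural numbers `x` with `(g x, x α) ∈ U`. Then,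
for some `R < S` and `ε > 0`, every integer `n` for which all numbers
`n lam ^ j / (lam ^ S - lam ^ R)` and `n lam ^ j α i / (lam ^ S - lam ^ R)` with `j ≤ S` are at
distance less than `ε` from the integers is a difference of two elements of `A`. -/
theorem result {d : ℕ} (α : Fin d → ℝ) (lam : ℝ) (hlam : 1 < lam)
    (child : ℕ → ℕ) (h0 : child 0 = 0) (h1 : ∀ i, 1 ≤ i → i < child i)
    (hloc : ∀ I : ℕ, ∃ e > 0, ∀ u v : ℕ, |lam * u - v| < e → ‖phase α u‖ < e →
      ∀ i < I, child (u + i) = v + child i)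
    {X : Type*} [MetricSpace X] [CompactSpace X]
    (T : ℕ → X × (Fin d → UnitAddCircle) → X) (hT : ∀ j, Continuous (T j))
    (hclose : ∀ η > 0, ∃ r s : ℕ, r < s ∧
      ∀ u, dist ((fun u => T 0 (u, 0))^[r] u) ((fun u => T 0 (u, 0))^[s] u) < η)
    (g : ℕ → X)
    (hg : ∀ y j, child y + j < child (y + 1) → g (child y + j) = T j (g y, phase α y))
    (K U : Set (X × (Fin d → UnitAddCircle))) (hK : IsCompact K) (hU : IsOpen U) (hKU : K ⊆ U)
    (L : ℕ) (hsyn : ∀ x : ℕ, ∃ i < L, (g (x + i), phase α (x + i)) ∈ K)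
    (A : Set ℤ) (hA : ∀ x : ℕ, (g x, phase α x) ∈ U → (x : ℤ) ∈ A) :
    ∃ R S : ℕ, R < S ∧ ∃ ε > 0, ∀ n : ℤ,
      (∀ j ≤ S, ‖((n * lam ^ j / (lam ^ S - lam ^ R) : ℝ) : UnitAddCircle)‖ < ε) →
      (∀ j ≤ S, ∀ i, ‖((n * lam ^ j / (lam ^ S - lam ^ R) * α i : ℝ) : UnitAddCircle)‖ < ε) →
      ∃ x ∈ A, ∃ y ∈ A, x - y = n := by
  obtain ⟨m, hm⟩ := exists_dep_all h0 h1 L
  obtain ⟨δ, hδ, hthick⟩ := hK.exists_thickening_subset_open hU hKU
  obtain ⟨εD, hεD, hD⟩ := digits_all hloc hT hg m L hm δ hδ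
  have hεD3 : 0 < εD / 3 := by positivity
  obtain ⟨r, s, hrs, hcl⟩ := hclose (εD / 3) hεD3
  obtain ⟨εr, hεr, hr⟩ := zeros h0 h1 hloc hT hg r (εD / 3) hεD3
  obtain ⟨εs, hεs, hs⟩ := zeros h0 h1 hloc hT hg s (εD / 3) hεD3
  obtain ⟨e, he, her, hes, heD, heδ⟩ : ∃ e > 0, e ≤ εr ∧ e ≤ εs ∧ e ≤ εD ∧ e ≤ δ / 2 :=
    ⟨min (min εr εs) (min εD (δ / 2)),
      lt_min (lt_min hεr hεs) (lt_min hεD (by positivity)),
      (min_le_left _ _).trans (min_le_left _ _), (min_le_left _ _).trans (min_le_right _ _),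
      (min_le_right _ _).trans (min_le_left _ _), (min_le_right _ _).trans (min_le_right _ _)⟩
  have hsum : ∀ i, |α i| ≤ ∑ i, |α i| := fun i =>
    Finset.single_le_sum (f := fun i => |α i|) (fun j _ => abs_nonneg _) (Finset.mem_univ i)
  have hsum0 : 0 ≤ ∑ i, |α i| := Finset.sum_nonneg fun i _ => abs_nonneg _
  obtain ⟨B, hB⟩ : ∃ B : ℝ, B = lam + 2 + ∑ i, |α i| := ⟨_, rfl⟩
  have hB0 : 0 < B := by rw [hB]; linarith
  obtain ⟨ε, hε, hε4, hεB⟩ : ∃ ε > 0, ε ≤ 1 / 4 ∧ ε * B ≤ e :=
    ⟨min (1 / 4) (e / B), lt_min (by norm_num) (by positivity), min_le_left _ _, by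
      calc min (1 / 4) (e / B) * B ≤ e / B * B :=
            mul_le_mul_of_nonneg_right (min_le_right _ _) hB0.le
        _ = e := div_mul_cancel₀ e hB0.ne'⟩
  have hden : 0 < lam ^ (s + m) - lam ^ (r + m) :=
    sub_pos.2 (pow_lt_pow_right₀ hlam (by omega))
  refine ⟨r + m, s + m, by omega, ε, hε, ?_⟩
  have main : ∀ n : ℕ,
      (∀ j ≤ s + m, ‖((n * lam ^ j / (lam ^ (s + m) - lam ^ (r + m)) : ℝ) : UnitAddCircle)‖ < ε) →
      (∀ j ≤ s + m, ∀ i,
        ‖((n * lam ^ j / (lam ^ (s + m) - lam ^ (r + m)) * α i : ℝ) : UnitAddCircle)‖ < ε) →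
      ∃ x y : ℕ, (x : ℤ) ∈ A ∧ (y : ℤ) ∈ A ∧ y + n = x := by
    intro n hn1 hn2
    obtain ⟨w, hw⟩ : ∃ w : ℕ → ℝ,
        ∀ t, w t = n * lam ^ t / (lam ^ (s + m) - lam ^ (r + m)) := ⟨_, fun _ => rfl⟩
    have hw0 : ∀ t, 0 ≤ w t := by
      intro t
      rw [hw]
      have h1 : (0 : ℝ) < lam ^ t := pow_pos (by linarith) t
      have h2 : (0 : ℝ) ≤ n := Nat.cast_nonneg n
      exact div_nonneg (mul_nonneg h2 h1.le) hden.le
    have hws : ∀ t, lam * w t = w (t + 1) := by
      intro t
      rw [hw, hw, pow_succ]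
      ring
    obtain ⟨Y, hY⟩ : ∃ Y : ℕ → ℕ, ∀ t, Y t = (round (w t)).toNat := ⟨_, fun _ => rfl⟩
    have hYw : ∀ t, ((Y t : ℕ) : ℝ) = (round (w t) : ℝ) := by
      intro t
      have h0 : 0 ≤ round (w t) := by
        rw [round_eq]
        exact Int.floor_nonneg.2 (by linarith [hw0 t])
      have h1 : ((Y t : ℕ) : ℤ) = round (w t) := by
        rw [hY]
        exact Int.toNat_of_nonneg h0
      rw [← h1]
      rfl
    have hYe : ∀ t ≤ s + m, |w t - Y t| < ε := by
      intro t ht
      have h := hn1 t ht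
      rw [UnitAddCircle.norm_eq, ← hw] at h
      rw [hYw]
      exact h
    have hchain : Chain lam α e (s + m) Y := by
      constructor
      · intro t ht
        have h1 := hYe t ht.le
        have h2 := hYe (t + 1) ht
        have h3 : lam * Y t - Y (t + 1) = (w (t + 1) - Y (t + 1)) - lam * (w t - Y t) := by
          rw [← hws]
          ring
        rw [h3]
        have h4 : |lam * (w t - Y t)| ≤ lam * ε := by
          rw [abs_mul, abs_of_pos (by linarith : 0 < lam)]
          exact mul_le_mul_of_nonneg_left h1.le (by linarith)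
        have h5 := abs_sub (w (t + 1) - Y (t + 1)) (lam * (w t - Y t))
        have h6 : ε * (lam + 2) ≤ ε * B := mul_le_mul_of_nonneg_left (by rw [hB]; linarith) hε.le
        nlinarith
      · intro t ht
        rw [pi_norm_lt_iff he]
        intro i
        have h1 := hYe t ht
        have h2 := hn2 t ht i
        rw [← hw] at h2
        have h3 : phase α (Y t) i = ((w t * α i : ℝ) : UnitAddCircle) +
            ((-(w t - Y t) * α i : ℝ) : UnitAddCircle) := by
          rw [← AddCircle.coe_add]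
          simp only [phase]
          congr 1
          ring
        rw [h3]
        have h4 := norm_add_le ((w t * α i : ℝ) : UnitAddCircle)
          ((-(w t - Y t) * α i : ℝ) : UnitAddCircle)
        have h5 := coe_norm_le (-(w t - Y t) * α i)
        rw [abs_mul, abs_neg] at h5
        have h6 : |w t - Y t| * |α i| ≤ ε * |α i| :=
          mul_le_mul_of_nonneg_right h1.le (abs_nonneg _)
        have h7 : ε * (1 + |α i|) ≤ ε * B :=
          mul_le_mul_of_nonneg_left (by rw [hB]; linarith [hsum i]) hε.le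
        nlinarith
    have hdiff : Y (r + m) + n = Y (s + m) := by
      have h1 := hYe (r + m) (by omega)
      have h2 := hYe (s + m) le_rfl
      have h3 : w (s + m) - w (r + m) = n := by
        rw [hw, hw, ← sub_div, ← mul_sub]
        exact mul_div_cancel_right₀ _ hden.ne'
      rw [abs_lt] at h1 h2
      have h4 : ((Y (r + m) + n : ℕ) : ℝ) < ((Y (s + m) + 1 : ℕ) : ℝ) := by
        push_cast
        linarith [h1.1, h1.2, h2.1, h2.2]
      have h5 : ((Y (s + m) : ℕ) : ℝ) < ((Y (r + m) + n + 1 : ℕ) : ℝ) := by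
        push_cast
        linarith [h1.1, h1.2, h2.1, h2.2]
      have h6 := Nat.cast_lt.1 h4
      have h7 := Nat.cast_lt.1 h5
      omega
    have c1 : dist (g (Y r)) ((fun u => T 0 (u, 0))^[r] (g (Y 0))) < εD / 3 :=
      hr Y ⟨fun t ht => (hchain.1 t (by omega)).trans_le her,
        fun t ht => (hchain.2 t (by omega)).trans_le her⟩
    have c2 : dist (g (Y s)) ((fun u => T 0 (u, 0))^[s] (g (Y 0))) < εD / 3 :=
      hs Y ⟨fun t ht => (hchain.1 t (by omega)).trans_le hes,
        fun t ht => (hchain.2 t (by omega)).trans_le hes⟩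
    have c3 := hcl (g (Y 0))
    have c4 : dist (g (Y r)) (g (Y s)) < εD := by
      have t1 := dist_triangle (g (Y r)) ((fun u => T 0 (u, 0))^[r] (g (Y 0))) (g (Y s))
      have t2 := dist_triangle ((fun u => T 0 (u, 0))^[r] (g (Y 0)))
        ((fun u => T 0 (u, 0))^[s] (g (Y 0))) (g (Y s))
      rw [dist_comm ((fun u => T 0 (u, 0))^[s] (g (Y 0))) (g (Y s))] at t2
      linarith
    have c5 := hD (fun t => Y (r + t)) (fun t => Y (s + t))
      ((hchain.mono heD).shift (by omega)) ((hchain.mono heD).shift (by omega)) c4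
    obtain ⟨i, hi, hiK⟩ := hsyn (Y (r + m))
    have c6 := c5 i hi
    refine ⟨Y (s + m) + i, Y (r + m) + i, hA _ (hthick ?_), hA _ (hKU hiK), by omega⟩
    rw [Metric.mem_thickening_iff]
    refine ⟨_, hiK, ?_⟩
    rw [Prod.dist_eq, max_lt_iff]
    refine ⟨?_, ?_⟩
    · show dist (g (Y (s + m) + i)) (g (Y (r + m) + i)) < δ
      rw [dist_comm]
      exact c6
    · show dist (phase α (Y (s + m) + i)) (phase α (Y (r + m) + i)) < δ
      rw [phase_add, phase_add, dist_eq_norm, add_sub_add_right_eq_sub]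
      have h1 := hchain.2 (s + m) le_rfl
      have h2 := hchain.2 (r + m) (by omega)
      exact (norm_sub_le _ _).trans_lt (by linarith)
  intro n hn1 hn2
  rcases Int.eq_nat_or_neg n with ⟨k, rfl | rfl⟩
  · obtain ⟨x, y, hx, hy, hxy⟩ := main k (by simpa using hn1) (by simpa using hn2)
    exact ⟨x, hx, y, hy, by omega⟩
  · obtain ⟨x, y, hx, hy, hxy⟩ := main k
      (fun j hj => by
        have h := hn1 j hj
        have e1 : (((-(k : ℤ) : ℤ) : ℝ) * lam ^ j / (lam ^ (s + m) - lam ^ (r + m)) : ℝ) =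
            -((k : ℝ) * lam ^ j / (lam ^ (s + m) - lam ^ (r + m))) := by
          push_cast
          ring
        rw [e1, AddCircle.coe_neg, norm_neg] at h
        exact h)
      (fun j hj i => by
        have h := hn2 j hj i
        have e1 : (((-(k : ℤ) : ℤ) : ℝ) * lam ^ j / (lam ^ (s + m) - lam ^ (r + m)) * α i : ℝ) =
            -((k : ℝ) * lam ^ j / (lam ^ (s + m) - lam ^ (r + m)) * α i) := by
          push_cast
          ring
        rw [e1, AddCircle.coe_neg, norm_neg] at h
        exact h)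
    exact ⟨y, hy, x, hx, by omega⟩

end Pool.Agent.Results.MP_83445a_co.DigitMachines
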