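import Mathlib
import Pool.Agent.H20.KQWinding

/-!
# Circle-valued functions without winding squares

A set `S = -S` of integers is disjoint from a one-dimensional Bohr set of radius `δ` if and only if
it is separated, on arbitrarily long intervals, by circle-valued functions for which no square
`x, x + s, x + s + t, x + t` with sides `s, t ∈ S` winds around the circle.
-/

set_option autoImplicit false

namespace Pool.Agent.Results.MP_83445a_co.NoWindingSquares

open Pool.Agent.H20.KQW

/-- Let `S = -S` be a set of integers and `δ > 0`. There is a real `θ` with `θ * s` at distance at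
least `δ` from the integers for all `s ∈ S` if and only if for every `N` there is a function
`f : ℤ → ℝ / ℤ` (given by real representatives) such that for all `s, t ∈ S` with `|s|, |t| ≤ N` and
all `0 ≤ x ≤ N`, the difference `f (x + s) - f x` is at distance at least `δ` from the integers and
the two routes round the square `x, x + s, x + s + t, x + t` have the same (counterclockwise)
length. -/
theorem result (S : Set ℤ) (hS : ∀ s ∈ S, -s ∈ S) (δ : ℝ) (hδ : 0 < δ) :
    (∃ θ : ℝ, ∀ s ∈ S, δ ≤ |θ * s - round (θ * s)|) ↔
      ∀ N : ℕ, ∃ f : ℤ → ℝ, ∀ s ∈ S, ∀ t ∈ S, |s| ≤ N → |t| ≤ N → ∀ x : ℤ, 0 ≤ x → x ≤ N →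
        δ ≤ |(f (x + s) - f x) - round (f (x + s) - f x)| ∧
        Int.fract (f (x + s) - f x) + Int.fract (f (x + s + t) - f (x + s)) =
          Int.fract (f (x + t) - f x) + Int.fract (f (x + t + s) - f (x + t)) := by
  constructor
  · rintro ⟨θ, hθ⟩ N
    refine ⟨fun x => θ * x, fun s hs t _ _ _ x _ _ => ⟨?_, ?_⟩⟩
    · have e : θ * ((x + s : ℤ) : ℝ) - θ * (x : ℝ) = θ * s := by
        push_cast
        ring
      simp only [e]
      exact hθ s hs
    · have e1 : θ * ((x + s : ℤ) : ℝ) - θ * (x : ℝ) = θ * s := by
        push_cast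
        ring
      have e2 : θ * ((x + s + t : ℤ) : ℝ) - θ * ((x + s : ℤ) : ℝ) = θ * t := by
        push_cast
        ring
      have e3 : θ * ((x + t : ℤ) : ℝ) - θ * (x : ℝ) = θ * t := by
        push_cast
        ring
      have e4 : θ * ((x + t + s : ℤ) : ℝ) - θ * ((x + t : ℤ) : ℝ) = θ * s := by
        push_cast
        ring
      simp only [e1, e2, e3, e4]
      ring
  · intro h
    obtain ⟨θ, hθ⟩ := mainLocal S hS δ hδ (by
      intro N
      obtain ⟨f, hf⟩ := h N
      refine ⟨f, fun s hs t ht hsN htN x hx0 hxN => ?_⟩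
      obtain ⟨h1, h2⟩ := hf s hs t ht hsN htN x hx0 hxN
      refine ⟨h1, ?_⟩
      unfold W
      rw [h2]
      ring)
    exact ⟨θ, fun s hs => hθ s hs⟩

end Pool.Agent.Results.MP_83445a_co.NoWindingSquares
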